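import Mathlib

/-! Broken-linear transformations of the unit interval and their ergodic averages. -/

open MeasureTheory Filter Topology Set

namespace Q68.BL

/-- `T` is a broken-linear transformation of `[0, 1]`: it maps `[0, 1]` into itself, is continuous
there, and there are points `0 = a 0 < a 1 < ⋯ < a m = 1` such that `T` is affine on each
`[a j, a (j + 1)]`. -/
def IsBrokenLinear (T : ℝ → ℝ) : Prop :=
  MapsTo T (Icc 0 1) (Icc 0 1) ∧ ContinuousOn T (Icc 0 1) ∧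
  ∃ (m : ℕ) (a : ℕ → ℝ), a 0 = 0 ∧ a m = 1 ∧ (∀ j < m, a j < a (j + 1)) ∧
    ∀ j < m, ∃ α β : ℝ, ∀ x ∈ Icc (a j) (a (j + 1)), T x = α * x + β

/-- `A_N(R, p)`: the proportion of the iterates `T p, …, T^N p` that lie in `R`. -/
noncomputable def avg (T : ℝ → ℝ) (R : Set ℝ) (p : ℝ) (N : ℕ) : ℝ :=
  (∑ i ∈ Finset.Icc 1 N, R.indicator (fun _ => (1 : ℝ)) (T^[i] p)) / N

/-- The statement which Q1 asks to prove or disprove. -/
def Question1 : Prop :=
  ∀ T : ℝ → ℝ, IsBrokenLinear T → ∀ R ⊆ Icc (0 : ℝ) 1, NullMeasurableSet R volume →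
    ∀ᵐ p ∂(volume.restrict (Icc (0 : ℝ) 1)), ∃ L : ℝ, Tendsto (avg T R p) atTop (𝓝 L)

/-- The statement which Q2 asks to prove or disprove. -/
def Question2 : Prop :=
  ∀ T : ℝ → ℝ, IsBrokenLinear T → ∀ R ⊆ Icc (0 : ℝ) 1, NullMeasurableSet R volume →
    ∀ L : ℝ → ℝ,
      (∀ᵐ p ∂(volume.restrict (Icc (0 : ℝ) 1)), Tendsto (avg T R p) atTop (𝓝 (L p))) →
      ∃ V : Set ℝ, V.Finite ∧ ∀ᵐ p ∂(volume.restrict (Icc (0 : ℝ) 1)), L p ∈ V

end Q68.BL
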