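import Mathlib

/-! The threefold tent map: almost every orbit meets a given neighbourhood of the top. -/

open MeasureTheory Filter Topology Set

namespace Q68.BL

/-- the threefold tent map -/
noncomputable def G (y : ℝ) : ℝ := min (3 * y) |3 * y - 2|

lemma G_continuous : Continuous G := by
  unfold G
  fun_prop

lemma G_left {y : ℝ} (h : y ≤ 1 / 3) : G y = 3 * y := by
  unfold G
  apply min_eq_left
  rw [le_abs]
  right
  linarith

lemma G_right {y : ℝ} (h : 1 / 3 ≤ y) : G y = |3 * y - 2| := by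
  unfold G
  apply min_eq_right
  rw [abs_le]
  constructor <;> linarith

lemma exists_rep (x : AddCircle (1 : ℝ)) : ∃ t : ℝ, (t : AddCircle (1 : ℝ)) = x ∧ |t| ≤ 1 / 2 := by
  obtain ⟨s, rfl⟩ := QuotientAddGroup.mk_surjective x
  refine ⟨s - round s, ?_, abs_sub_round s⟩
  rw [AddCircle.coe_sub]
  have : ((round s : ℝ) : AddCircle (1 : ℝ)) = 0 := by
    rw [AddCircle.coe_eq_zero_iff]
    exact ⟨round s, by simp⟩
  rw [this, sub_zero]

lemma norm_rep {t : ℝ} (ht : |t| ≤ 1 / 2) : ‖(t : AddCircle (1 : ℝ))‖ = |t| := by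
  rw [AddCircle.norm_coe_eq_abs_iff _ one_ne_zero]
  simpa using ht

lemma norm_three_aux {t : ℝ} (h0 : 0 ≤ t) (ht : t ≤ 1 / 2) :
    2 * ‖((3 * t : ℝ) : AddCircle (1 : ℝ))‖ = G (2 * t) := by
  rcases le_total t (1 / 6) with h | h
  · rw [norm_rep (by rw [abs_le]; constructor <;> linarith), G_left (by linarith),
      abs_of_nonneg (by linarith)]
    ring
  · have e : ((3 * t : ℝ) : AddCircle (1 : ℝ)) = ((3 * t - 1 : ℝ) : AddCircle (1 : ℝ)) := by
      rw [AddCircle.coe_sub, AddCircle.coe_period, sub_zero]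
    rw [e, norm_rep (by rw [abs_le]; constructor <;> linarith), G_right (by linarith)]
    have : 3 * (2 * t) - 2 = 2 * (3 * t - 1) := by ring
    rw [this, abs_mul]
    norm_num

/-- The tent map is a factor of the map `x ↦ 3 x` of the circle. -/
lemma norm_three (x : AddCircle (1 : ℝ)) : 2 * ‖3 • x‖ = G (2 * ‖x‖) := by
  obtain ⟨t, rfl, ht⟩ := exists_rep x
  rw [norm_rep ht]
  have e : 3 • (t : AddCircle (1 : ℝ)) = ((3 * t : ℝ) : AddCircle (1 : ℝ)) := by
    rw [← AddCircle.coe_nsmul]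
    simp
  rw [e]
  rcases le_total 0 t with h | h
  · rw [abs_of_nonneg h] at ht ⊢
    exact norm_three_aux h ht
  · rw [abs_of_nonpos h] at ht ⊢
    have e2 : ((3 * t : ℝ) : AddCircle (1 : ℝ)) = - ((3 * (-t) : ℝ) : AddCircle (1 : ℝ)) := by
      rw [← AddCircle.coe_neg]
      congr 1
      ring
    rw [e2, norm_neg]
    exact norm_three_aux (by linarith) ht

lemma norm_iter (n : ℕ) (x : AddCircle (1 : ℝ)) :
    2 * ‖(fun y : AddCircle (1 : ℝ) => 3 • y)^[n] x‖ = G^[n] (2 * ‖x‖) := by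
  induction n with
  | zero => rfl
  | succ n ih => rw [Function.iterate_succ_apply', Function.iterate_succ_apply', norm_three, ih]

/-- Almost every point of the circle enters `{c < G (2 ‖x‖)}`. -/
lemma circle_enter {c : ℝ} (hc : c < 1) : ∀ᵐ x : AddCircle (1 : ℝ) ∂volume,
    ∃ n : ℕ, c < G^[n + 1] (2 * ‖x‖) := by
  set f : AddCircle (1 : ℝ) → AddCircle (1 : ℝ) := fun y => 3 • y with hf
  have herg : Ergodic f volume := AddCircle.ergodic_nsmul (by norm_num)
  set U : Set (AddCircle (1 : ℝ)) := {x | c < G (2 * ‖x‖)} with hU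
  have hUo : IsOpen U := isOpen_lt continuous_const (G_continuous.comp (by fun_prop))
  have hUne : U.Nonempty := by
    refine ⟨((1 / 6 : ℝ) : AddCircle (1 : ℝ)), ?_⟩
    show c < G (2 * ‖((1 / 6 : ℝ) : AddCircle (1 : ℝ))‖)
    rw [norm_rep (by rw [abs_le]; constructor <;> norm_num), G_left (by norm_num)]
    norm_num
    exact hc
  have hU0 : volume U ≠ 0 := (hUo.measure_pos volume hUne).ne'
  set V : Set (AddCircle (1 : ℝ)) := ⋃ n : ℕ, (f^[n]) ⁻¹' U with hV
  have hVm : MeasurableSet V :=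
    MeasurableSet.iUnion fun n => (herg.measurable.iterate n) hUo.measurableSet
  have hsub : f ⁻¹' V ⊆ V := by
    intro x hx
    obtain ⟨n, hn⟩ := mem_iUnion.1 hx
    refine mem_iUnion.2 ⟨n + 1, ?_⟩
    rw [mem_preimage, Function.iterate_succ_apply]
    exact hn
  have hVU : volume V ≠ 0 := by
    intro h0
    apply hU0
    apply measure_mono_null _ h0
    intro x hx
    exact mem_iUnion.2 ⟨0, hx⟩
  have h1 := herg.ae_empty_or_univ_of_preimage_ae_le hVm.nullMeasurableSet hsub.eventuallyLE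
  rcases h1 with h1 | h1
  · exact absurd (measure_congr h1) (by rw [measure_empty]; exact hVU)
  · filter_upwards [h1.mem_iff] with x hx
    obtain ⟨n, hn⟩ := mem_iUnion.1 (hx.2 (mem_univ x))
    refine ⟨n, ?_⟩
    have hn' : c < G (2 * ‖f^[n] x‖) := hn
    rw [norm_iter] at hn'
    rwa [Function.iterate_succ_apply']

/-- Almost every orbit of the tent map goes above `c < 1`. -/
theorem enter {c : ℝ} (hc : c < 1) : ∀ᵐ y ∂(volume.restrict (Icc (0 : ℝ) 1)),
    ∃ n : ℕ, c < G^[n + 1] y := by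
  have h1 := (AddCircle.measurePreserving_mk 1 0).quasiMeasurePreserving.ae (circle_enter hc)
  rw [ae_restrict_iff' measurableSet_Ioc] at h1
  rw [ae_restrict_iff' measurableSet_Icc]
  have h2 : Measure.QuasiMeasurePreserving (fun y : ℝ => y * (1 / 2)) volume volume := by
    refine ⟨by fun_prop, ?_⟩
    rw [Real.map_volume_mul_right (by norm_num)]
    exact Measure.smul_absolutelyContinuous
  have h3 := h2.ae h1
  have h4 : ∀ᵐ y : ℝ ∂volume, y ≠ 0 := by
    rw [ae_iff]
    simp
  filter_upwards [h3, h4] with y hy hy0 hy1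
  have hpos : 0 < y := lt_of_le_of_ne hy1.1 (Ne.symm hy0)
  obtain ⟨n, hn⟩ := hy ⟨by linarith, by linarith [hy1.2]⟩
  refine ⟨n, ?_⟩
  rw [norm_rep (by rw [abs_le]; constructor <;> linarith [hy1.2]), abs_of_pos (by linarith)] at hn
  have e : 2 * (y * (1 / 2)) = y := by ring
  rwa [e] at hn

end Q68.BL
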