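import Mathlib
import Pool.Agent.Q68.BL.Tent

/-! A point of the middle third Cantor set with divergent digit frequencies. -/

open Filter Topology Set

namespace Q68.BL

/-- the indices with digit `2` -/
def two (n : ℕ) : Prop := n = 0 ∨ n = 1 ∨ (2 < n ∧ n % 2 = 1 ∧ Nat.log 2 n % 2 = 0)

instance (n : ℕ) : Decidable (two n) := by unfold two; infer_instance

/-- the digits -/
noncomputable def dg (n : ℕ) : ℝ := if two n then 2 else 0

lemma dg_nonneg (n : ℕ) : 0 ≤ dg n := by unfold dg; split_ifs <;> norm_num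

lemma dg_le (n : ℕ) : dg n ≤ 2 := by unfold dg; split_ifs <;> norm_num

lemma term_le (i n : ℕ) : dg (n + i) / 3 ^ (n + 1) ≤ (2 / 3 : ℝ) * (1 / 3 : ℝ) ^ n := by
  have h1 := dg_le (n + i)
  rw [one_div, inv_pow, pow_succ, div_eq_mul_inv, mul_inv]
  have h2 : (0 : ℝ) ≤ ((3 : ℝ) ^ n)⁻¹ * (3 : ℝ)⁻¹ := by positivity
  calc dg (n + i) * (((3 : ℝ) ^ n)⁻¹ * (3 : ℝ)⁻¹) ≤ 2 * (((3 : ℝ) ^ n)⁻¹ * (3 : ℝ)⁻¹) :=
        mul_le_mul_of_nonneg_right h1 h2
    _ = _ := by ring

lemma summ (i : ℕ) : Summable fun n : ℕ => dg (n + i) / 3 ^ (n + 1) := by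
  have h : Summable fun n : ℕ => (2 / 3 : ℝ) * (1 / 3 : ℝ) ^ n :=
    (summable_geometric_of_lt_one (by norm_num) (by norm_num)).mul_left _
  exact Summable.of_nonneg_of_le (fun n => by have := dg_nonneg (n + i); positivity)
    (fun n => term_le i n) h

/-- the points of the orbit -/
noncomputable def pt (i : ℕ) : ℝ := ∑' n : ℕ, dg (n + i) / 3 ^ (n + 1)

lemma pt_rec (i : ℕ) : pt i = (dg i + pt (i + 1)) / 3 := by
  unfold pt
  rw [(summ i).tsum_eq_zero_add]
  have e : ∀ n : ℕ, dg (n + 1 + i) / 3 ^ (n + 1 + 1) = (1 / 3) * (dg (n + (i + 1)) / 3 ^ (n + 1)) := by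
    intro n
    rw [show n + 1 + i = n + (i + 1) by ring, pow_succ (3 : ℝ) (n + 1)]
    field_simp
  simp_rw [e]
  rw [tsum_mul_left]
  simp
  ring

lemma pt_nonneg (i : ℕ) : 0 ≤ pt i :=
  tsum_nonneg fun n => by have := dg_nonneg (n + i); positivity

lemma pt_le (i : ℕ) : pt i ≤ 1 := by
  have h := (hasSum_geometric_of_lt_one (r := (1 / 3 : ℝ)) (by norm_num) (by norm_num)).mul_left
      (2 / 3 : ℝ)
  have h2 := hasSum_le (fun n => term_le i n) (summ i).hasSum h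
  unfold pt
  refine h2.trans (le_of_eq ?_)
  norm_num

lemma pt_two {i : ℕ} (h : two i) : pt i = (2 + pt (i + 1)) / 3 := by
  rw [pt_rec, dg, if_pos h]

lemma pt_not {i : ℕ} (h : ¬ two i) : pt i = pt (i + 1) / 3 := by
  rw [pt_rec, dg, if_neg h, zero_add]

lemma not_two_two : ¬ two 2 := by decide

lemma not_two_succ {i : ℕ} (hi : 1 ≤ i) (h : two i) : ¬ two (i + 1) := by
  unfold two at h ⊢
  omega

lemma G_pt (i : ℕ) : G (pt i) = pt (i + 1) := by
  have h0 := pt_nonneg (i + 1)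
  have h1 := pt_le (i + 1)
  by_cases h : two i
  · rw [pt_two h, G_right (by linarith), abs_of_nonneg (by linarith)]
    ring
  · rw [pt_not h, G_left (by linarith)]
    ring

lemma pt_zero_lb : 8 / 9 ≤ pt 0 := by
  rw [pt_two (Or.inl rfl), pt_two (Or.inr (Or.inl rfl))]
  have := pt_nonneg (0 + 1 + 1)
  linarith

lemma pt_zero_lt : pt 0 < 1 := by
  rw [pt_two (Or.inl rfl), pt_two (Or.inr (Or.inl rfl)), pt_not not_two_two]
  have := pt_le (0 + 1 + 1 + 1)
  linarith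

lemma pt_le_zero (i : ℕ) : pt i ≤ pt 0 := by
  rcases Nat.eq_zero_or_pos i with h | h
  · rw [h]
  · have h0 := pt_zero_lb
    by_cases h2 : two i
    · rw [pt_two h2, pt_not (not_two_succ h h2)]
      have := pt_le (i + 1 + 1)
      linarith
    · rw [pt_not h2]
      have := pt_le (i + 1)
      linarith

/-- the stunted tent map -/
noncomputable def T1 (y : ℝ) : ℝ := min (G y) (pt 0)

lemma T1_pt (i : ℕ) : T1 (pt i) = pt (i + 1) := by
  unfold T1
  rw [G_pt, min_eq_left (pt_le_zero _)]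

lemma T1_iter_pt (i : ℕ) : T1^[i] (pt 0) = pt i := by
  induction i with
  | zero => rfl
  | succ i ih => rw [Function.iterate_succ_apply', ih, T1_pt]

/-- almost every orbit falls on the orbit of `pt 0` -/
lemma falls {y : ℝ} (h : ∃ n : ℕ, pt 0 < G^[n + 1] y) : ∃ n : ℕ, T1^[n + 1] y = pt 0 := by
  classical
  obtain ⟨n, hn, hmin⟩ : ∃ n, pt 0 < G^[n + 1] y ∧ ∀ m < n, ¬ pt 0 < G^[m + 1] y :=
    ⟨Nat.find h, Nat.find_spec h, fun m hm => Nat.find_min h hm⟩
  have hit : ∀ m, m ≤ n → T1^[m] y = G^[m] y := by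
    intro m
    induction m with
    | zero => intro _; rfl
    | succ m ih =>
      intro hm
      have h1 := hmin m (by omega)
      rw [Function.iterate_succ_apply'] at h1
      rw [Function.iterate_succ_apply', Function.iterate_succ_apply', ih (by omega)]
      unfold T1
      exact min_eq_left (not_lt.1 h1)
  refine ⟨n, ?_⟩
  rw [Function.iterate_succ_apply', hit n le_rfl]
  rw [Function.iterate_succ_apply'] at hn
  exact min_eq_right hn.le

/-! Digit frequencies -/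

/-- indicator of the digit `0` -/
noncomputable def zr (n : ℕ) : ℝ := if two n then 0 else 1

lemma sum_even (a b : ℕ) (ha : a % 2 = 0) :
    ∑ j ∈ Finset.range (2 * b), (if (a + j) % 2 = 1 then (0 : ℝ) else 1) = b := by
  induction b with
  | zero => simp
  | succ b ih =>
    rw [show 2 * (b + 1) = 2 * b + 1 + 1 by ring, Finset.sum_range_succ, Finset.sum_range_succ, ih,
      if_neg (by omega), if_pos (by omega)]
    push_cast
    ring

lemma block_half {k : ℕ} (hk : 1 ≤ k) : ∑ n ∈ Finset.range (2 ^ (2 * k + 1)), zr n =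
    ∑ n ∈ Finset.range (2 ^ (2 * k)), zr n + 2 ^ (2 * k) / 2 := by
  have h1 : 2 ^ (2 * k + 1) = 2 ^ (2 * k) + 2 ^ (2 * k) := by ring
  rw [h1, Finset.sum_range_add]
  congr 1
  have h2 : 2 ^ (2 * k) = 2 * 2 ^ (2 * k - 1) := by
    rw [← pow_succ']
    congr 1
    omega
  have h3 : ∀ j ∈ Finset.range (2 ^ (2 * k)), zr (2 ^ (2 * k) + j) =
      if (2 ^ (2 * k) + j) % 2 = 1 then (0 : ℝ) else 1 := by
    intro j hj
    rw [Finset.mem_range] at hj
    have hlog : Nat.log 2 (2 ^ (2 * k) + j) = 2 * k := by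
      rw [Nat.log_eq_iff (Or.inl (by omega))]
      constructor <;> omega
    have h4 : 4 ≤ 2 ^ (2 * k) := by
      calc 4 = 2 ^ 2 := by norm_num
        _ ≤ 2 ^ (2 * k) := Nat.pow_le_pow_right (by norm_num) (by omega)
    unfold zr
    have h5 : two (2 ^ (2 * k) + j) ↔ (2 ^ (2 * k) + j) % 2 = 1 := by
      unfold two
      rw [hlog]
      omega
    simp only [h5]
  rw [Finset.sum_congr rfl h3, h2]
  have h6 := sum_even (2 * 2 ^ (2 * k - 1)) (2 ^ (2 * k - 1)) (by omega)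
  rw [h6]
  have h7 : ((2 : ℝ) ^ (2 * k)) = 2 * 2 ^ (2 * k - 1) := by exact_mod_cast h2
  rw [h7]
  push_cast
  ring

lemma block_full {k : ℕ} (hk : 1 ≤ k) : ∑ n ∈ Finset.range (2 ^ (2 * k + 2)), zr n =
    ∑ n ∈ Finset.range (2 ^ (2 * k + 1)), zr n + 2 ^ (2 * k + 1) := by
  have h1 : 2 ^ (2 * k + 2) = 2 ^ (2 * k + 1) + 2 ^ (2 * k + 1) := by ring
  rw [h1, Finset.sum_range_add]
  congr 1
  have h3 : ∀ j ∈ Finset.range (2 ^ (2 * k + 1)), zr (2 ^ (2 * k + 1) + j) = 1 := by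
    intro j hj
    rw [Finset.mem_range] at hj
    have hlog : Nat.log 2 (2 ^ (2 * k + 1) + j) = 2 * k + 1 := by
      rw [Nat.log_eq_iff (Or.inl (by omega))]
      constructor <;> omega
    have h4 : 8 ≤ 2 ^ (2 * k + 1) := by
      calc 8 = 2 ^ 3 := by norm_num
        _ ≤ 2 ^ (2 * k + 1) := Nat.pow_le_pow_right (by norm_num) (by omega)
    unfold zr
    rw [if_neg]
    unfold two
    rw [hlog]
    omega
  rw [Finset.sum_congr rfl h3]
  simp

lemma pow_tendsto (c : ℕ) : Tendsto (fun k : ℕ => 2 ^ (2 * k + c)) atTop atTop := by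
  apply tendsto_atTop_mono (f := fun k : ℕ => k)
  · intro k
    have : k < 2 ^ k := Nat.lt_two_pow_self
    have h2 : 2 ^ k ≤ 2 ^ (2 * k + c) := Nat.pow_le_pow_right (by norm_num) (by omega)
    omega
  · exact tendsto_id

/-- The frequency of the digit `0` does not converge. -/
theorem freq_diverges (L : ℝ) :
    ¬ Tendsto (fun M : ℕ => (∑ n ∈ Finset.range M, zr n) / M) atTop (𝓝 L) := by
  intro h
  have hu := h.comp (pow_tendsto 0)
  have hv := h.comp (pow_tendsto 1)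
  have hw := h.comp (pow_tendsto 2)
  have e1 : ∀ᶠ k : ℕ in atTop, (∑ n ∈ Finset.range (2 ^ (2 * k + 1)), zr n) /
      ((2 ^ (2 * k + 1) : ℕ) : ℝ) =
      ((∑ n ∈ Finset.range (2 ^ (2 * k + 0)), zr n) / ((2 ^ (2 * k + 0) : ℕ) : ℝ)) / 2 + 1 / 4 := by
    filter_upwards [eventually_ge_atTop 1] with k hk
    rw [block_half hk, add_zero]
    push_cast
    rw [pow_succ]
    field_simp
    ring
  have e2 : ∀ᶠ k : ℕ in atTop, (∑ n ∈ Finset.range (2 ^ (2 * k + 2)), zr n) /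
      ((2 ^ (2 * k + 2) : ℕ) : ℝ) =
      ((∑ n ∈ Finset.range (2 ^ (2 * k + 1)), zr n) / ((2 ^ (2 * k + 1) : ℕ) : ℝ)) / 2 + 1 / 2 := by
    filter_upwards [eventually_ge_atTop 1] with k hk
    rw [block_full hk]
    push_cast
    rw [show 2 * k + 2 = (2 * k + 1) + 1 by ring, pow_succ (2 : ℝ) (2 * k + 1)]
    field_simp
  have l1 : Tendsto (fun k : ℕ => ((∑ n ∈ Finset.range (2 ^ (2 * k + 0)), zr n) /
      ((2 ^ (2 * k + 0) : ℕ) : ℝ)) / 2 + 1 / 4) atTop (𝓝 (L / 2 + 1 / 4)) :=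
    (hu.div_const 2).add_const _
  have l2 : Tendsto (fun k : ℕ => ((∑ n ∈ Finset.range (2 ^ (2 * k + 1)), zr n) /
      ((2 ^ (2 * k + 1) : ℕ) : ℝ)) / 2 + 1 / 2) atTop (𝓝 (L / 2 + 1 / 2)) :=
    (hv.div_const 2).add_const _
  have m1 : L = L / 2 + 1 / 4 := tendsto_nhds_unique hv (l1.congr' (e1.mono fun _ h => h.symm))
  have m2 : L = L / 2 + 1 / 2 := tendsto_nhds_unique hw (l2.congr' (e2.mono fun _ h => h.symm))
  linarith

end Q68.BL
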