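import Mathlib
import Pool.Agent.Q68.BL.Digits
import Pool.Agent.Q68.BL.Defs

/-! The stunted tent map: almost everywhere divergence for an interval. -/

open MeasureTheory Filter Topology Set

namespace Q68.BL

lemma sum_Icc_one (f : ℕ → ℝ) (N : ℕ) :
    ∑ i ∈ Finset.Icc 1 N, f i = ∑ i ∈ Finset.range N, f (i + 1) := by
  induction N with
  | zero => simp
  | succ N ih => rw [Finset.sum_Icc_succ_top (by omega), Finset.sum_range_succ, ih]

lemma indicator_pt (j : ℕ) :
    (Icc (0 : ℝ) (1 / 2)).indicator (fun _ => (1 : ℝ)) (pt j) = zr j := by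
  have h0 := pt_nonneg (j + 1)
  have h1 := pt_le (j + 1)
  unfold zr
  by_cases h : two j
  · rw [if_pos h, indicator_of_notMem]
    rw [pt_two h]
    intro h2
    linarith [h2.2]
  · rw [if_neg h, indicator_of_mem]
    rw [pt_not h]
    constructor <;> linarith

/-- If the orbit of `p` falls on the orbit of `pt 0`, then the averages diverge. -/
theorem diverges {p : ℝ} {n : ℕ} (h : T1^[n + 1] p = pt 0) (L : ℝ) :
    ¬ Tendsto (avg T1 (Icc 0 (1 / 2)) p) atTop (𝓝 L) := by
  intro hL
  apply freq_diverges L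
  obtain ⟨C, hC⟩ : ∃ C, C = ∑ i ∈ Finset.range n,
    (Icc (0 : ℝ) (1 / 2)).indicator (fun _ => (1 : ℝ)) (T1^[i + 1] p) := ⟨_, rfl⟩
  have h1 : ∀ M : ℕ, ∑ j ∈ Finset.range M, zr j =
      (∑ i ∈ Finset.Icc 1 (n + M),
        (Icc (0 : ℝ) (1 / 2)).indicator (fun _ => (1 : ℝ)) (T1^[i] p)) - C := by
    intro M
    rw [sum_Icc_one, Finset.sum_range_add, ← hC, add_sub_cancel_left]
    refine Finset.sum_congr rfl fun j _ => ?_
    rw [show n + j + 1 = j + (n + 1) by ring, Function.iterate_add_apply, h, T1_iter_pt,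
      indicator_pt]
  have h2 : Tendsto (fun M : ℕ => avg T1 (Icc 0 (1 / 2)) p (n + M)) atTop (𝓝 L) :=
    hL.comp (tendsto_atTop_mono (fun M => Nat.le_add_left M n) tendsto_id)
  have h3 : Tendsto (fun M : ℕ => ((n + M : ℕ) : ℝ) / M) atTop (𝓝 1) := by
    have h4 : Tendsto (fun M : ℕ => (n : ℝ) / M + 1) atTop (𝓝 (0 + 1)) :=
      (tendsto_const_nhds.div_atTop tendsto_natCast_atTop_atTop).add_const 1
    rw [zero_add] at h4
    refine h4.congr' ?_
    filter_upwards [eventually_gt_atTop 0] with M hM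
    have : (M : ℝ) ≠ 0 := by exact_mod_cast hM.ne'
    push_cast
    field_simp
  have h5 : Tendsto (fun M : ℕ => C / (M : ℝ)) atTop (𝓝 0) :=
    tendsto_const_nhds.div_atTop tendsto_natCast_atTop_atTop
  have h6 : Tendsto (fun M : ℕ => avg T1 (Icc 0 (1 / 2)) p (n + M) * (((n + M : ℕ) : ℝ) / M) -
      C / (M : ℝ)) atTop (𝓝 (L * 1 - 0)) := (h2.mul h3).sub h5
  rw [mul_one, sub_zero] at h6
  refine h6.congr' ?_
  filter_upwards [eventually_gt_atTop 0] with M hM
  have hM' : (M : ℝ) ≠ 0 := by exact_mod_cast hM.ne'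
  have hnM : ((n + M : ℕ) : ℝ) ≠ 0 := by
    have : n + M ≠ 0 := by omega
    exact_mod_cast this
  rw [h1 M]
  unfold avg
  field_simp

theorem ae_diverges : ∀ᵐ p ∂(volume.restrict (Icc (0 : ℝ) 1)), ∀ L : ℝ,
    ¬ Tendsto (avg T1 (Icc 0 (1 / 2)) p) atTop (𝓝 L) := by
  filter_upwards [enter pt_zero_lt] with p hp
  obtain ⟨n, hn⟩ := falls hp
  exact diverges hn

/-- The break points. -/
noncomputable def brk : ℕ → ℝ
  | 0 => 0
  | 1 => pt 0 / 3
  | 2 => (2 - pt 0) / 3
  | 3 => 2 / 3
  | 4 => (2 + pt 0) / 3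
  | _ => 1

theorem T1_brokenLinear : IsBrokenLinear T1 := by
  have h0 := pt_zero_lb
  have h1 := pt_zero_lt
  refine ⟨?_, ?_, 5, brk, rfl, rfl, ?_, ?_⟩
  · intro x hx
    unfold T1 G
    constructor
    · refine le_min (le_min (by linarith [hx.1]) (abs_nonneg _)) (by linarith)
    · exact (min_le_right _ _).trans (by linarith)
  · exact (G_continuous.min continuous_const).continuousOn
  · intro j hj
    interval_cases j <;> simp only [brk] <;> linarith
  · intro j hj
    interval_cases j
    · refine ⟨3, 0, fun x hx => ?_⟩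
      simp only [brk] at hx
      unfold T1
      rw [G_left (by linarith [hx.2]), min_eq_left (by linarith [hx.2])]
      ring
    · refine ⟨0, pt 0, fun x hx => ?_⟩
      simp only [brk] at hx
      unfold T1
      rw [min_eq_right]
      · ring
      · unfold G
        refine le_min (by linarith [hx.1]) ?_
        rw [le_abs]
        right
        linarith [hx.2]
    · refine ⟨-3, 2, fun x hx => ?_⟩
      simp only [brk] at hx
      unfold T1
      rw [G_right (by linarith [hx.1]), abs_of_nonpos (by linarith [hx.2]),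
        min_eq_left (by linarith [hx.1])]
      ring
    · refine ⟨3, -2, fun x hx => ?_⟩
      simp only [brk] at hx
      unfold T1
      rw [G_right (by linarith [hx.1]), abs_of_nonneg (by linarith [hx.1]),
        min_eq_left (by linarith [hx.2])]
      ring
    · refine ⟨0, pt 0, fun x hx => ?_⟩
      simp only [brk] at hx
      unfold T1
      rw [min_eq_right]
      · ring
      · unfold G
        refine le_min (by linarith [hx.1]) ?_
        rw [le_abs]
        left
        linarith [hx.1]

end Q68.BL
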