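import Mathlib
import Pool.Agent.Q68.BL.Ex1

/-! The contraction `p ↦ p / 2` and sets which are unions of pieces at dyadic scales. -/

open MeasureTheory Filter Topology Set

namespace Q68.BL

/-- Averages of a shifted sequence. -/
lemma shift_avg (f : ℕ → ℝ) (k : ℕ) (L : ℝ) :
    Tendsto (fun N : ℕ => (∑ i ∈ Finset.Icc 1 N, f (k + i)) / (N : ℝ)) atTop (𝓝 L) ↔
    Tendsto (fun M : ℕ => (∑ j ∈ Finset.range M, f j) / (M : ℝ)) atTop (𝓝 L) := by
  obtain ⟨C, hC⟩ : ∃ C, C = ∑ j ∈ Finset.range (k + 1), f j := ⟨_, rfl⟩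
  have h1 : ∀ N : ℕ, ∑ j ∈ Finset.range (N + (k + 1)), f j =
      C + ∑ i ∈ Finset.Icc 1 N, f (k + i) := by
    intro N
    rw [add_comm N, Finset.sum_range_add, ← hC, sum_Icc_one]
    congr 1
    refine Finset.sum_congr rfl fun i _ => ?_
    congr 1
    ring
  have h5 : Tendsto (fun N : ℕ => C / (N : ℝ)) atTop (𝓝 0) :=
    tendsto_const_nhds.div_atTop tendsto_natCast_atTop_atTop
  have hr : Tendsto (fun N : ℕ => ((N + (k + 1) : ℕ) : ℝ) / N) atTop (𝓝 1) := by
    have h4 : Tendsto (fun M : ℕ => 1 + ((k + 1 : ℕ) : ℝ) / M) atTop (𝓝 (1 + 0)) :=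
      (tendsto_const_nhds.div_atTop tendsto_natCast_atTop_atTop).const_add 1
    rw [add_zero] at h4
    refine h4.congr' ?_
    filter_upwards [eventually_gt_atTop 0] with M hM
    have : (M : ℝ) ≠ 0 := by exact_mod_cast hM.ne'
    push_cast
    field_simp
  rw [← tendsto_add_atTop_iff_nat (k + 1) (f := fun M : ℕ => (∑ j ∈ Finset.range M, f j) / (M : ℝ))]
  constructor
  · intro h
    have h6 : Tendsto (fun N : ℕ => ((∑ i ∈ Finset.Icc 1 N, f (k + i)) / (N : ℝ) + C / N) /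
        (((N + (k + 1) : ℕ) : ℝ) / N)) atTop (𝓝 ((L + 0) / 1)) := (h.add h5).div hr one_ne_zero
    rw [add_zero, div_one] at h6
    refine h6.congr' ?_
    filter_upwards [eventually_gt_atTop 0] with N hN
    have hN' : (N : ℝ) ≠ 0 := by exact_mod_cast hN.ne'
    have hN2 : ((N + (k + 1) : ℕ) : ℝ) ≠ 0 := by
      have : N + (k + 1) ≠ 0 := by omega
      exact_mod_cast this
    rw [h1]
    field_simp
    ring
  · intro h
    have h6 : Tendsto (fun N : ℕ => (∑ j ∈ Finset.range (N + (k + 1)), f j) /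
        ((N + (k + 1) : ℕ) : ℝ) * (((N + (k + 1) : ℕ) : ℝ) / N) - C / N) atTop (𝓝 (L * 1 - 0)) :=
      (h.mul hr).sub h5
    rw [mul_one, sub_zero] at h6
    refine h6.congr' ?_
    filter_upwards [eventually_gt_atTop 0] with N hN
    have hN' : (N : ℝ) ≠ 0 := by exact_mod_cast hN.ne'
    have hN2 : ((N + (k + 1) : ℕ) : ℝ) ≠ 0 := by
      have : N + (k + 1) ≠ 0 := by omega
      exact_mod_cast this
    rw [h1]
    field_simp
    ring

/-- the contraction -/
noncomputable def T2 (y : ℝ) : ℝ := y / 2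

lemma T2_iter (i : ℕ) (y : ℝ) : T2^[i] y = y / 2 ^ i := by
  induction i with
  | zero => simp
  | succ i ih => rw [Function.iterate_succ_apply', ih, T2, pow_succ]; field_simp

lemma T2_strictMono : StrictMono T2 := fun a b h => by unfold T2; linarith

lemma T2_brokenLinear : IsBrokenLinear T2 := by
  refine ⟨?_, ?_, 1, fun n => n, by simp, by simp, ?_, ?_⟩
  · intro x hx
    unfold T2
    constructor <;> linarith [hx.1, hx.2]
  · unfold T2
    fun_prop
  · intro j _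
    push_cast
    linarith
  · intro j _
    exact ⟨1 / 2, 0, fun x _ => by unfold T2; ring⟩

/-- the set with piece `W j` at scale `2⁻ʲ` -/
def scaled (W : ℕ → Set ℝ) : Set ℝ := ⋃ j : ℕ, (fun x : ℝ => 2 ^ j * x) ⁻¹' (W j ∩ Ioc (1 / 2) 1)

lemma scaled_measurable {W : ℕ → Set ℝ} (hW : ∀ j, MeasurableSet (W j)) :
    MeasurableSet (scaled W) :=
  MeasurableSet.iUnion fun j => (measurable_const_mul _) ((hW j).inter measurableSet_Ioc)

lemma scaled_subset (W : ℕ → Set ℝ) : scaled W ⊆ Icc 0 1 := by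
  intro x hx
  obtain ⟨j, -, hj⟩ := mem_iUnion.1 hx
  have h2 : (1 : ℝ) ≤ 2 ^ j := one_le_pow₀ (by norm_num)
  have hj1 : 1 / 2 < 2 ^ j * x := hj.1
  have hj2 : 2 ^ j * x ≤ 1 := hj.2
  have hx0 : 0 < x := by
    by_contra hneg
    have : 2 ^ j * x ≤ 0 := mul_nonpos_of_nonneg_of_nonpos (by positivity) (not_lt.1 hneg)
    linarith
  exact ⟨hx0.le, by nlinarith⟩

lemma scale_unique {q : ℝ} (hq : q ∈ Ioc (1 / 2 : ℝ) 1) {i j : ℕ}
    (h : 2 ^ j * (q / 2 ^ i) ∈ Ioc (1 / 2 : ℝ) 1) : j = i := by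
  have hi : (0 : ℝ) < 2 ^ i := by positivity
  by_contra hne
  rcases lt_or_gt_of_ne hne with hlt | hlt
  · obtain ⟨d, rfl⟩ := Nat.exists_eq_add_of_lt hlt
    have h1 : 2 ^ j * (q / 2 ^ (j + d + 1)) = q / 2 ^ (d + 1) := by
      rw [add_assoc, pow_add]
      field_simp
    rw [h1] at h
    have h2 : (2 : ℝ) ≤ 2 ^ (d + 1) := by
      rw [pow_succ]
      have : (1 : ℝ) ≤ 2 ^ d := one_le_pow₀ (by norm_num)
      linarith
    have h3 := h.1
    rw [lt_div_iff₀ (by positivity)] at h3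
    linarith [hq.2]
  · obtain ⟨d, rfl⟩ := Nat.exists_eq_add_of_lt hlt
    have h1 : 2 ^ (i + d + 1) * (q / 2 ^ i) = q * 2 ^ (d + 1) := by
      rw [add_assoc, pow_add]
      field_simp
    rw [h1] at h
    have h2 : (2 : ℝ) ≤ 2 ^ (d + 1) := by
      rw [pow_succ]
      have : (1 : ℝ) ≤ 2 ^ d := one_le_pow₀ (by norm_num)
      linarith
    have h3 := h.2
    nlinarith [hq.1]

lemma mem_scaled {W : ℕ → Set ℝ} {q : ℝ} (hq : q ∈ Ioc (1 / 2 : ℝ) 1) (i : ℕ) :
    q / 2 ^ i ∈ scaled W ↔ q ∈ W i := by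
  have hi : (2 : ℝ) ^ i * (q / 2 ^ i) = q := by field_simp
  constructor
  · intro h
    obtain ⟨j, hj1, hj2⟩ := mem_iUnion.1 h
    have : j = i := scale_unique hq hj2
    subst this
    have hj1' : 2 ^ j * (q / 2 ^ j) ∈ W j := hj1
    rwa [hi] at hj1'
  · intro h
    refine mem_iUnion.2 ⟨i, ?_⟩
    rw [mem_preimage, hi]
    exact ⟨h, hq⟩

lemma exists_scale {p : ℝ} (hp : p ∈ Ioc (0 : ℝ) 1) :
    ∃ (k : ℕ) (q : ℝ), q ∈ Ioc (1 / 2 : ℝ) 1 ∧ p = q / 2 ^ k := by
  classical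
  have hex : ∃ k : ℕ, 1 / 2 < 2 ^ k * p := by
    obtain ⟨k, hk⟩ := pow_unbounded_of_one_lt (1 / (2 * p)) (one_lt_two : (1 : ℝ) < 2)
    refine ⟨k, ?_⟩
    have hp0 := hp.1
    rw [div_lt_iff₀ (by positivity)] at hk
    linarith
  refine ⟨Nat.find hex, 2 ^ (Nat.find hex) * p, ⟨Nat.find_spec hex, ?_⟩, by field_simp⟩
  rcases Nat.eq_zero_or_pos (Nat.find hex) with h | h
  · rw [h, pow_zero, one_mul]
    exact hp.2
  · have h1 := Nat.find_min hex (Nat.sub_lt h one_pos)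
    rw [not_lt] at h1
    have h2 : (2 : ℝ) ^ (Nat.find hex) = 2 * 2 ^ (Nat.find hex - 1) := by
      rw [← pow_succ']
      congr 1
      omega
    rw [h2]
    linarith

open Classical in
lemma avg_scaled (W : ℕ → Set ℝ) {q : ℝ} (hq : q ∈ Ioc (1 / 2 : ℝ) 1) (k : ℕ) (L : ℝ) :
    Tendsto (avg T2 (scaled W) (q / 2 ^ k)) atTop (𝓝 L) ↔
    Tendsto (fun M : ℕ => (∑ j ∈ Finset.range M, (if q ∈ W j then (1 : ℝ) else 0)) / (M : ℝ))
      atTop (𝓝 L) := by
  rw [← shift_avg (fun j => if q ∈ W j then (1 : ℝ) else 0) k L]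
  have : avg T2 (scaled W) (q / 2 ^ k) = fun N : ℕ =>
      (∑ i ∈ Finset.Icc 1 N, (if q ∈ W (k + i) then (1 : ℝ) else 0)) / (N : ℝ) := by
    funext N
    unfold avg
    congr 1
    refine Finset.sum_congr rfl fun i _ => ?_
    rw [T2_iter, div_div, ← pow_add]
    unfold Set.indicator
    simp only [mem_scaled hq]
  rw [this]

/-! Divergence -/

open Classical in
/-- the set for which all averages of `T2` diverge -/
noncomputable def Wdiv (j : ℕ) : Set ℝ := if two j then ∅ else univ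

lemma Wdiv_measurable (j : ℕ) : MeasurableSet (Wdiv j) := by
  unfold Wdiv
  split_ifs
  · exact MeasurableSet.empty
  · exact MeasurableSet.univ

theorem T2_diverges {p : ℝ} (hp : p ∈ Ioc (0 : ℝ) 1) (L : ℝ) :
    ¬ Tendsto (avg T2 (scaled Wdiv) p) atTop (𝓝 L) := by
  classical
  obtain ⟨k, q, hq, rfl⟩ := exists_scale hp
  rw [avg_scaled Wdiv hq k L]
  have : ∀ j, (if q ∈ Wdiv j then (1 : ℝ) else 0) = zr j := by
    intro j
    unfold Wdiv zr
    by_cases h : two j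
    · simp [h]
    · simp [h]
  simp_rw [this]
  exact freq_diverges L

/-! Infinitely many values -/

/-- an equidistributed sequence in `[0, 1)` -/
noncomputable def v (j : ℕ) : ℝ := ((j - (Nat.sqrt j) ^ 2 : ℕ) : ℝ) / (2 * Nat.sqrt j + 1 : ℕ)

open Classical in
/-- counting function -/
noncomputable def cnt (t : ℝ) (N : ℕ) : ℝ := ∑ j ∈ Finset.range N, (if v j < t then (1 : ℝ) else 0)

lemma block_cnt {t : ℝ} (h0 : 0 ≤ t) (h1 : t ≤ 1) {m : ℕ} (hm : 0 < m) :
    t * m ≤ ∑ r ∈ Finset.range m, (if ((r : ℝ) / m < t) then (1 : ℝ) else 0) ∧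
    ∑ r ∈ Finset.range m, (if ((r : ℝ) / m < t) then (1 : ℝ) else 0) ≤ t * m + 1 := by
  have hm' : (0 : ℝ) < m := by exact_mod_cast hm
  have e : ∑ r ∈ Finset.range m, (if ((r : ℝ) / m < t) then (1 : ℝ) else 0) = (⌈t * m⌉₊ : ℝ) := by
    rw [Finset.sum_ite, Finset.sum_const_zero, add_zero, Finset.sum_const, nsmul_eq_mul, mul_one]
    congr 1
    have : (Finset.range m).filter (fun r : ℕ => (r : ℝ) / m < t) = Finset.range ⌈t * m⌉₊ := by
      ext r
      rw [Finset.mem_filter, Finset.mem_range, Finset.mem_range, Nat.lt_ceil, div_lt_iff₀ hm']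
      constructor
      · exact fun h => h.2
      · intro h
        refine ⟨?_, h⟩
        have : (r : ℝ) < m := lt_of_lt_of_le h (by nlinarith)
        exact_mod_cast this
    rw [this, Finset.card_range]
  rw [e]
  exact ⟨Nat.le_ceil _, (Nat.ceil_lt_add_one (by positivity)).le⟩

lemma cnt_sq {t : ℝ} (h0 : 0 ≤ t) (h1 : t ≤ 1) (M : ℕ) :
    t * (M : ℝ) ^ 2 ≤ cnt t (M ^ 2) ∧ cnt t (M ^ 2) ≤ t * (M : ℝ) ^ 2 + M := by
  induction M with
  | zero => simp [cnt]
  | succ M ih =>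
    have e1 : (M + 1) ^ 2 = M ^ 2 + (2 * M + 1) := by ring
    have e2 : cnt t ((M + 1) ^ 2) = cnt t (M ^ 2) +
        ∑ r ∈ Finset.range (2 * M + 1),
          (if ((r : ℝ) / ((2 * M + 1 : ℕ) : ℝ) < t) then (1 : ℝ) else 0) := by
      unfold cnt
      rw [e1, Finset.sum_range_add]
      congr 1
      refine Finset.sum_congr rfl fun r hr => ?_
      have hr' := Finset.mem_range.1 hr
      have hs : Nat.sqrt (M ^ 2 + r) = M := Nat.sqrt_add_eq' M (by omega)
      unfold v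
      rw [hs, Nat.add_sub_cancel_left]
    have h2 := block_cnt h0 h1 (m := 2 * M + 1) (by omega)
    rw [e2]
    push_cast at h2 ⊢
    constructor <;> nlinarith [ih.1, ih.2, h2.1, h2.2]

lemma cnt_mono (t : ℝ) : Monotone (cnt t) := by
  classical
  intro a b h
  unfold cnt
  apply Finset.sum_le_sum_of_subset_of_nonneg (Finset.range_subset_range.2 h)
  intro i _ _
  split_ifs <;> norm_num

lemma cnt_tendsto {t : ℝ} (h0 : 0 ≤ t) (h1 : t ≤ 1) :
    Tendsto (fun M : ℕ => cnt t M / M) atTop (𝓝 t) := by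
  have hb : ∀ N : ℕ, |cnt t N - t * N| ≤ 4 * Real.sqrt N + 2 := by
    intro N
    set M := Nat.sqrt N with hM
    have hlo : M ^ 2 ≤ N := Nat.sqrt_le' N
    have hhi : N < (M + 1) ^ 2 := Nat.lt_succ_sqrt' N
    have hlo' : (M : ℝ) ^ 2 ≤ N := by exact_mod_cast hlo
    have hhi' : (N : ℝ) < (M + 1) ^ 2 := by exact_mod_cast hhi
    have a1 := (cnt_sq h0 h1 M).1
    have a2 := (cnt_sq h0 h1 (M + 1)).2
    have b1 := cnt_mono t hlo
    have b2 := cnt_mono t hhi.le
    have hMs : (M : ℝ) ≤ Real.sqrt N := Real.le_sqrt_of_sq_le hlo'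
    push_cast at a2
    have c1 : t * (N : ℝ) ≤ t * (M : ℝ) ^ 2 + (2 * M + 1) := by nlinarith
    have c2 : t * (M : ℝ) ^ 2 ≤ t * N := mul_le_mul_of_nonneg_left hlo' h0
    have hM0 : (0 : ℝ) ≤ M := Nat.cast_nonneg _
    have c3 : t * ((M : ℝ) + 1) ^ 2 ≤ t * (M : ℝ) ^ 2 + (2 * M + 1) := by nlinarith
    rw [abs_le]
    constructor <;> nlinarith
  rw [← tendsto_sub_nhds_zero_iff]
  have hz : Tendsto (fun N : ℕ => 4 * (1 / Real.sqrt N) + 2 * (1 / (N : ℝ))) atTop (𝓝 0) := by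
    have t1 : Tendsto (fun N : ℕ => 1 / Real.sqrt N) atTop (𝓝 0) := by
      simp_rw [one_div]
      exact tendsto_inv_atTop_zero.comp
        (Real.tendsto_sqrt_atTop.comp tendsto_natCast_atTop_atTop)
    have t2 : Tendsto (fun N : ℕ => 1 / (N : ℝ)) atTop (𝓝 0) := tendsto_one_div_atTop_nhds_zero_nat
    have := (t1.const_mul 4).add (t2.const_mul 2)
    simpa using this
  apply squeeze_zero_norm' _ hz
  filter_upwards [eventually_gt_atTop 0] with N hN
  have hN' : (0 : ℝ) < N := by exact_mod_cast hN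
  have hs : 0 < Real.sqrt N := Real.sqrt_pos.2 hN'
  have hss : Real.sqrt N * Real.sqrt N = N := Real.mul_self_sqrt hN'.le
  rw [Real.norm_eq_abs]
  have e : cnt t N / N - t = (cnt t N - t * N) / N := by field_simp
  rw [e, abs_div, abs_of_pos hN', div_le_iff₀ hN']
  refine (hb N).trans (le_of_eq ?_)
  field_simp
  nlinarith

/-- the pieces for Q2 -/
def Wval (j : ℕ) : Set ℝ := {q | v j < 2 * q - 1}

lemma Wval_measurable (j : ℕ) : MeasurableSet (Wval j) :=
  measurableSet_lt measurable_const (by fun_prop)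

theorem T2_value {q : ℝ} (hq : q ∈ Ioc (1 / 2 : ℝ) 1) (k : ℕ) :
    Tendsto (avg T2 (scaled Wval) (q / 2 ^ k)) atTop (𝓝 (2 * q - 1)) := by
  classical
  rw [avg_scaled Wval hq k]
  have h := cnt_tendsto (t := 2 * q - 1) (by linarith [hq.1]) (by linarith [hq.2])
  refine h.congr fun M => ?_
  unfold cnt Wval
  rfl

end Q68.BL
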